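import Pool.Agent.H65G.NumB
import Pool.Agent.H65G.NumC
import Pool.Agent.H65G.Crit

set_option autoImplicit false

/-!
A lower bound for the volume of every oriented filling of the round sphere without shortcuts, in
every dimension and without any restriction on the topology.
-/

open Real Set MeasureTheory Metric Matrix
open scoped RealInnerProductSpace

namespace Pool.Agent.Results.MP_aeade1_gt.AllDimensionBound

open Pool.Agent.H65G

/-- **Lower bounds for filling volumes.** -/
theorem result {d : ℕ} (hd : 1 ≤ d) {X : Type} [MetricSpace X]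
    {γ : Metric.sphere (0 : EuclideanSpace ℝ (Fin (d + 1))) 1 → X}
    (hns : ∀ s t : Metric.sphere (0 : EuclideanSpace ℝ (Fin (d + 1))) 1,
      arccos ⟪(s : EuclideanSpace ℝ (Fin (d + 1))), (t : EuclideanSpace ℝ (Fin (d + 1)))⟫ ≤
        dist (γ s) (γ t))
    {m : ℕ} {q : Fin m → EuclideanSpace ℝ (Fin (d + 1)) → X}
    {G : Fin m → EuclideanSpace ℝ (Fin (d + 1)) → Matrix (Fin (d + 1)) (Fin (d + 1)) ℝ}
    (hq : ∀ j, IsRiemannianCube (q j) (G j)) (hb : HasBoundary q γ) :
    (∀ R : ℝ, 0 < R → R < π / 2 →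
      (d = 1 ∧ 0.37 ≤ cos R) ∨ (d = 2 ∧ 0.51 ≤ cos R) ∨ (d + 1) * sin R ^ 4 ≤ 7 / 5 →
      fillBound d R ≤ ∑ j, cubeVolume (G j)) ∧
    (d = 1 → 0.91 * hemisphereVolume (d + 1) ≤ ∑ j, cubeVolume (G j)) ∧
    (d = 2 → 0.81 * hemisphereVolume (d + 1) ≤ ∑ j, cubeVolume (G j)) := by
  have key : ∀ R : ℝ, 0 < R → R < π / 2 →
      (d = 1 ∧ 0.37 ≤ cos R) ∨ (d = 2 ∧ 0.51 ≤ cos R) ∨ (d + 1) * sin R ^ 4 ≤ 7 / 5 →
      fillBound d R ≤ ∑ j, cubeVolume (G j) := by
    intro R hR0 hR1 hR
    have hk0 : 0 < sin R := sin_pos_of_pos_of_lt_pi hR0 (by linarith)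
    have hc0 : 0 < cos R := cos_pos_of_mem_Ioo ⟨by linarith, by linarith⟩
    have hk1 : sin R < 1 := by
      have := sin_sq_add_cos_sq R
      nlinarith
    have hcrit : ∀ r, 0 ≤ r → r ≤ sin R → Crit d r := by
      intro r hr0 hr
      have h2 : r ^ 2 ≤ sin R ^ 2 := by gcongr
      have h4 : r ^ 4 ≤ sin R ^ 4 := by gcongr
      have h5 := sin_sq_add_cos_sq R
      refine crit_of hd hr0 (hr.trans_lt hk1) ?_
      rcases hR with ⟨h1, h⟩ | ⟨h1, h⟩ | h
      · left
        refine ⟨h1, ?_⟩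
        have : (0.37 : ℝ) ^ 2 ≤ cos R ^ 2 := by gcongr
        linarith
      · right; left
        refine ⟨h1, ?_⟩
        have : (0.51 : ℝ) ^ 2 ≤ cos R ^ 2 := by gcongr
        linarith
      · right; right
        have hd0 : (0 : ℝ) ≤ d + 1 := by positivity
        nlinarith
    exact fill_bound hd hR0 hR1 hcrit hns hq hb
  refine ⟨key, ?_, ?_⟩
  · intro h1
    have hR := arccos_37
    have h := key (arccos 0.37) (by linarith) (Real.arccos_lt_pi_div_two.2 (by norm_num))
      (Or.inl ⟨h1, by rw [Real.cos_arccos (by norm_num) (by norm_num)]⟩)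
    have h2 := fill_one
    have e1 : fillBound d (arccos 0.37) = fillBound 1 (arccos 0.37) := by rw [h1]
    have e2 : hemisphereVolume (d + 1) = hemisphereVolume 2 := by rw [h1]
    rw [e2]
    rw [e1] at h
    exact h2.trans h
  · intro h1
    have hR := arccos_51.1
    have h := key (arccos 0.51) (by linarith) (Real.arccos_lt_pi_div_two.2 (by norm_num))
      (Or.inr (Or.inl ⟨h1, by rw [Real.cos_arccos (by norm_num) (by norm_num)]⟩))
    have h2 := fill_two
    have e1 : fillBound d (arccos 0.51) = fillBound 2 (arccos 0.51) := by rw [h1]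
    have e2 : hemisphereVolume (d + 1) = hemisphereVolume 3 := by rw [h1]
    rw [e2]
    rw [e1] at h
    exact h2.trans h

end Pool.Agent.Results.MP_aeade1_gt.AllDimensionBound
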