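import Pool.Agent.CC57.FillTop

set_option autoImplicit false

/-!
The filling area conjecture of Gromov for all oriented fillings of the circle which have a long
conformally cylindrical collar.
-/

open Real MeasureTheory Set

namespace Pool.Agent.Results.MP_aeade1_gt.ConformalCollar

open Pool.Agent.CC57.Fill

/-- **The filling area inequality for fillings with a long conformal collar.**  There is a universal
constant `L₀` such that every filling of the closed curve `γ` of length `2π` without shortcuts, which
consists of a conformal collar of length at least `L₀` and of finitely many Riemannian squares whose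
boundary is the inner edge of the collar, has area at least `2π`. -/
theorem result : ∃ L₀ : ℝ, 0 < L₀ ∧ ∀ (X : Type) [MetricSpace X] (γ : ℝ → X) (L H : ℝ)
    (lam : ℂ → ℝ) (D : Set ℂ) (Ψ : ℂ → X) (m : ℕ) (q : Fin m → ℂ → X) (E F G : Fin m → ℂ → ℝ),
    (∀ s, γ (s + 2 * π) = γ s) →
    (∀ s t, arccos (cos (s - t)) ≤ dist (γ s) (γ t)) →
    IsCollar γ L H lam D Ψ → 0 ≤ H → H + L₀ ≤ L →
    (∀ j, IsRiemannianSquare (q j) (E j) (F j) (G j)) →
    (Bounds q fun θ => Ψ (-L + θ * Complex.I)) →
    2 * π ≤ 1 / 2 * (∫ x in (-L)..L, ∫ θ in (0 : ℝ)..2 * π, lam (x + θ * Complex.I) ^ 2) +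
      ∑ j, squareArea (E j) (F j) (G j) :=
  fill_top

end Pool.Agent.Results.MP_aeade1_gt.ConformalCollar
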