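import Pool.Agent.H65L.Final

set_option autoImplicit false

/-!
A lower bound for the volume of every filling of the round sphere without shortcuts, in every
dimension and for every topology, orientable or not, whose constant does not depend on the
dimension.
-/

open Real Set MeasureTheory Metric Matrix
open scoped RealInnerProductSpace

namespace Pool.Agent.Results.MP_aeade1_gt.DimensionFreeBound

open Pool.Agent.H65G Pool.Agent.H65L

/-- **Theorem.** Let `γ` be a sphere without shortcuts in a metric space `X`, parametrised by the
round unit sphere of dimension `d ≥ 1`. If `X` is a union of finitely many Riemannian cubes of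
dimension `d + 1` and does not retract to `γ`, then the total volume of the cubes is at least
`0.53` times the volume of the round hemisphere. -/
theorem result {d : ℕ} (hd : 1 ≤ d) {X : Type} [MetricSpace X]
    (γ : C(Metric.sphere (0 : EuclideanSpace ℝ (Fin (d + 1))) 1, X))
    (nonshortcutting : ∀ s t : Metric.sphere (0 : EuclideanSpace ℝ (Fin (d + 1))) 1,
      arccos ⟪(s : EuclideanSpace ℝ (Fin (d + 1))), (t : EuclideanSpace ℝ (Fin (d + 1)))⟫ ≤
        dist (γ s) (γ t))
    (essential : NoRetraction γ) {ι : Type} [Fintype ι]
    (q : ι → EuclideanSpace ℝ (Fin (d + 1)) → X)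
    (G : ι → EuclideanSpace ℝ (Fin (d + 1)) → Matrix (Fin (d + 1)) (Fin (d + 1)) ℝ)
    (cubes : ∀ i, IsRiemannianCube (q i) (G i))
    (cover : ∀ x, ∃ i, ∃ p ∈ cube (d + 1), q i p = x) :
    53 / 100 * hemisphereVolume (d + 1) ≤ ∑ i, cubeVolume (G i) :=
  main_bound hd γ nonshortcutting essential cubes cover

end Pool.Agent.Results.MP_aeade1_gt.DimensionFreeBound
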