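import Pool.Agent.H65G.Cap
import Pool.Agent.H65G.Crit

set_option autoImplicit false

/-!
Gromov's filling volume inequality, in the sharp form, in every dimension and without any
restriction on the topology, for fillings of the round sphere which contain a round collar.
-/

open Real Set MeasureTheory Metric Matrix
open scoped RealInnerProductSpace

namespace Pool.Agent.Results.MP_aeade1_gt.RoundCollarAllDim

open Pool.Agent.H65G

/-- **Sharp filling volume inequality for fillings with a round collar.** -/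
theorem result {d : ℕ} (hd : 1 ≤ d) {R : ℝ} (hR0 : 0 < R) (hR1 : R < π / 2)
    (hR : (d = 1 ∧ 0.37 ≤ cos R) ∨ (d = 2 ∧ 0.51 ≤ cos R) ∨ (d + 1) * sin R ^ 4 ≤ 7 / 5)
    {X : Type} [MetricSpace X]
    {γ₀ γ : Metric.sphere (0 : EuclideanSpace ℝ (Fin (d + 1))) 1 → X}
    (hanti : ∀ a : Metric.sphere (0 : EuclideanSpace ℝ (Fin (d + 1))) 1,
      π ≤ dist (γ₀ a) (γ₀ (-a)))
    (hcollar : ∀ a s : Metric.sphere (0 : EuclideanSpace ℝ (Fin (d + 1))) 1,
      0 ≤ ⟪(a : EuclideanSpace ℝ (Fin (d + 1))), (s : EuclideanSpace ℝ (Fin (d + 1)))⟫ →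
      dist (γ₀ a) (γ s) ≤ arccos (sin R *
        ⟪(a : EuclideanSpace ℝ (Fin (d + 1))), (s : EuclideanSpace ℝ (Fin (d + 1)))⟫))
    {m : ℕ} {q : Fin m → EuclideanSpace ℝ (Fin (d + 1)) → X}
    {G : Fin m → EuclideanSpace ℝ (Fin (d + 1)) → Matrix (Fin (d + 1)) (Fin (d + 1)) ℝ}
    (hq : ∀ j, IsRiemannianCube (q j) (G j)) (hb : HasBoundary q γ) :
    hemisphereVolume (d + 1) ≤ collarVolume (d + 1) R + ∑ j, cubeVolume (G j) := by
  have hk0 : 0 < sin R := sin_pos_of_pos_of_lt_pi hR0 (by linarith)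
  have hc0 : 0 < cos R := cos_pos_of_mem_Ioo ⟨by linarith, by linarith⟩
  have hk1 : sin R < 1 := by
    have := sin_sq_add_cos_sq R
    nlinarith
  have hcrit : ∀ r, 0 ≤ r → r ≤ sin R → Crit d r := by
    intro r hr0 hr
    have h2 : r ^ 2 ≤ sin R ^ 2 := by gcongr
    have h4 : r ^ 4 ≤ sin R ^ 4 := by gcongr
    have h5 := sin_sq_add_cos_sq R
    refine crit_of hd hr0 (hr.trans_lt hk1) ?_
    rcases hR with ⟨h1, h⟩ | ⟨h1, h⟩ | h
    · left
      refine ⟨h1, ?_⟩
      have : (0.37 : ℝ) ^ 2 ≤ cos R ^ 2 := by gcongr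
      linarith
    · right; left
      refine ⟨h1, ?_⟩
      have : (0.51 : ℝ) ^ 2 ≤ cos R ^ 2 := by gcongr
      linarith
    · right; right
      have hd0 : (0 : ℝ) ≤ d + 1 := by positivity
      nlinarith
  have hγ := chord_le_of_collar (d := d) hR0 hR1 (γ₀ := γ₀) (γ := γ) (fun a b hab => by
    have : b = -a := Subtype.ext hab
    rw [this]
    exact hanti a) hcollar
  have h := sharp_chord hd hR0 hR1 hcrit hγ hq hb
  have hsplit : hemisphereVolume (d + 1) = capVolume (d + 1) R + collarVolume (d + 1) R := by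
    unfold hemisphereVolume capVolume collarVolume
    rw [← mul_add, intervalIntegral.integral_add_adjacent_intervals]
    · exact (by fun_prop : Continuous fun θ : ℝ => sin θ ^ (d + 1 - 1)).intervalIntegrable _ _
    · exact (by fun_prop : Continuous fun θ : ℝ => sin θ ^ (d + 1 - 1)).intervalIntegrable _ _
  linarith

end Pool.Agent.Results.MP_aeade1_gt.RoundCollarAllDim
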